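import Mathlib
import Pool.Agent.H4.Sum1

set_option autoImplicit false
set_option maxHeartbeats 400000

open Filter Topology Finset
open scoped ENNReal

namespace Pool.Agent.Results.MP_890ea4_an.NotChaotic

/-- lower `m`-density: `liminf |A ∩ [1, m n]| / n`. -/
noncomputable def ld (m : ℕ → ℝ) (A : Set ℕ) : ℝ≥0∞ :=
  liminf (fun n : ℕ => ((A ∩ {j | 1 ≤ j ∧ (j : ℝ) ≤ m n}).encard : ℝ≥0∞) / n) atTop

/-- `m`-distributional chaos -/
def DC {X : Type} [NormedAddCommGroup X] [NormedSpace ℂ X] (m : ℕ → ℝ) (T : X →L[ℂ] X) : Prop :=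
  ∃ S : Set X, ¬ S.Countable ∧ ∃ σ : ℝ, 0 < σ ∧ ∀ ε : ℝ, 0 < ε → ∀ x ∈ S, ∀ y ∈ S, x ≠ y →
    ld m {j | dist ((T ^ j) x) ((T ^ j) y) < σ} = 0 ∧ ld m {j | ε ≤ dist ((T ^ j) x) ((T ^ j) y)} = 0

open Pool.Agent.H4.Sum

def b (i : ℕ) : ℕ := 2 ^ (i * i)
theorem b_mono : StrictMono b := fun i j h => Nat.pow_lt_pow_right (by norm_num) (by nlinarith)
theorem b_pos (i : ℕ) : 0 < b i := by unfold b; positivity
theorem b_succ (i : ℕ) : b (i + 1) = 2 * 4 ^ i * b i := by
  unfold b; rw [show (4 : ℕ) = 2 ^ 2 by norm_num, ← pow_mul]; ring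

noncomputable def r (i : ℕ) : ℝ := 1 + 1 / b i
theorem r1 (i : ℕ) : 1 ≤ r i := le_add_of_nonneg_right (by positivity)
theorem r3 (i k : ℕ) (h : k ≤ b i) : r i ^ k ≤ 3 := by
  have h0 : (0 : ℝ) < b i := by exact_mod_cast b_pos i
  calc r i ^ k ≤ r i ^ b i := pow_le_pow_right₀ (r1 i) h
    _ ≤ Real.exp (1 / b i) ^ b i := by
        unfold r; gcongr; rw [add_comm]; exact Real.add_one_le_exp _
    _ = Real.exp 1 := by rw [← Real.exp_nat_mul]; congr 1; field_simp
    _ ≤ 3 := by linarith [Real.exp_one_lt_d9]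

def sh (n : ℕ) : ℕ := Nat.pair n.unpair.1 (n.unpair.2 + 1)
noncomputable def c (n : ℕ) : ℂ := if n.unpair.2 + 1 < b (n.unpair.1 + 1) then (r n.unpair.1 : ℝ) else 0

theorem c_le (x : X) (n : ℕ) : ‖c n * x (sh n)‖ ≤ 3 * ‖x (sh n)‖ := by
  rw [norm_mul]
  gcongr
  unfold c
  split_ifs
  · rw [Complex.norm_of_nonneg (by linarith [r1 n.unpair.1])]
    simpa using r3 _ 1 (b_pos _)
  · simp

theorem sh_inj : Function.Injective sh := fun a b h => by
  have := Nat.pair_eq_pair.1 h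
  rw [← Nat.pair_unpair a, this.1, Nat.succ.inj this.2, Nat.pair_unpair]

noncomputable def Tl : X →ₗ[ℂ] X where
  toFun x := mk (fun n => c n * x (sh n)) (squeeze_zero_norm (c_le x) (by
    simpa using (((out x).comp sh_inj.nat_tendsto_atTop).norm).const_mul 3))
  map_add' a b := ZeroAtInftyContinuousMap.ext fun n => mul_add _ _ _
  map_smul' c a := ZeroAtInftyContinuousMap.ext fun n => mul_left_comm _ _ _

noncomputable def S : X →L[ℂ] X := Tl.mkContinuous 3 fun x =>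
  nm_le _ _ fun n => (c_le x n).trans (by gcongr; exact ap_le x _)

theorem S_pow (k : ℕ) (x : X) (i j : ℕ) : (S ^ (k + 1)) x (Nat.pair i j) =
    if j + (k + 1) < b (i + 1) then (r i : ℝ) ^ (k + 1) * x (Nat.pair i (j + (k + 1))) else 0 := by
  induction k generalizing j with
  | zero =>
    rw [zero_add, pow_one, pow_one]
    change c _ * x (sh _) = _
    simp [c, sh]
  | succ k ih =>
    rw [pow_succ', ContinuousLinearMap.mul_apply]
    change c _ * (S ^ (k + 1)) x (sh _) = _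
    simp only [c, sh, Nat.unpair_pair, ih, show j + 1 + (k + 1) = j + (k + 1 + 1) by ring]
    split_ifs <;> first | omega | ring

theorem S_le (k : ℕ) (hk : 1 ≤ k) (x : X) (C : ℝ) (hC : 0 ≤ C)
    (h : ∀ i j, j < b (i + 1) → k ≤ j → r i ^ k * ‖x (Nat.pair i j)‖ ≤ C) : ‖(S ^ k) x‖ ≤ C := by
  obtain ⟨k, rfl⟩ := Nat.exists_eq_add_of_le' hk
  refine nm_le _ _ fun n => ?_
  rw [← Nat.pair_unpair n, S_pow]
  split_ifs with h1
  · rw [norm_mul, norm_pow, Complex.norm_of_nonneg (by linarith [r1 n.unpair.1])]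
    exact h _ _ h1 (by omega)
  · simpa using hC

def X0 : Submodule ℂ X where
  carrier := {x | Tendsto (fun k => (S ^ k) x) atTop (𝓝 0)}
  zero_mem' := by simp
  add_mem' := fun h1 h2 => by simpa using Tendsto.add h1 h2
  smul_mem' := fun a x h => by
    have := Tendsto.const_smul h a
    simpa only [Set.mem_ofPred_eq, map_smul, smul_zero] using this

theorem X0_dense : Dense (X0 : Set X) := Metric.dense_iff.2 fun v ε hε => by
  obtain ⟨τ, hτ⟩ := H4.Dust.tg_approx v v (out v) (out v) (ε / 2) (by positivity)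
  refine ⟨mk _ (tg_tend τ), mem_ball_iff_norm.2 (lt_of_le_of_lt (nm_le _ (ε / 2) fun j => (hτ j).1.le)
    (by linarith)), tendsto_const_nhds.congr' (eventually_atTop.2 ⟨τ.1 + 1, fun k hk => ?_⟩)⟩
  refine (norm_le_zero_iff.1 (S_le k (by omega) _ 0 le_rfl fun i j _ h => ?_)).symm
  have : mk _ (tg_tend τ) (Nat.pair i j) = 0 :=
    H4.Dust.tg_zero _ _ _ (by have := Nat.right_le_pair i j; omega)
  simp [this]

theorem along (x : X) (σ : ℝ) (hσ : 0 < σ) : ∀ᶠ n in atTop, ‖(S ^ b n) x‖ < σ := by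
  obtain ⟨y, hy, h⟩ := X0_dense.exists_dist_lt x (show 0 < σ / 6 by positivity)
  have t := (tendsto_zero_iff_norm_tendsto_zero.1 hy).comp b_mono.tendsto_atTop
  filter_upwards [t.eventually (gt_mem_nhds (half_pos hσ))] with n hn
  have h1 : ‖(S ^ b n) (x - y)‖ ≤ 3 * ‖x - y‖ := S_le _ (b_pos n) _ _ (by positivity) fun i j h1 h2 =>
    mul_le_mul (r3 i _ (b_mono.monotone (by have := b_mono.lt_iff_lt.1 (h2.trans_lt h1); omega)))
      (ap_le _ _) (norm_nonneg _) (by norm_num)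
  rw [dist_eq_norm] at h
  rw [map_sub] at h1
  have := norm_sub_norm_le ((S ^ b n) x) ((S ^ b n) y)
  simp only [Function.comp_apply] at hn
  linarith

theorem ld_zero (A : Set ℕ) (C : ℝ) (h : ∀ M, ∃ i N, M ≤ i ∧ b (i + 1) - 1 ≤ N ∧
    ∀ j ∈ A, j ≤ N → (j : ℝ) < C * (i + 1) * b i) : ld (fun n => n) A = 0 := by
  refine le_antisymm (ENNReal.le_of_forall_pos_le_add fun η hη _ => ?_) zero_le
  rw [zero_add]
  refine liminf_le_of_frequently_le' (frequently_atTop.2 fun M => ?_)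
  obtain ⟨K, hK⟩ := exists_nat_ge (C / η)
  obtain ⟨i, N, h1, h2, h3⟩ := h (M + K)
  have p1 := b_succ i
  have p2 : i < b i := lt_of_le_of_lt (Nat.le_mul_self i) Nat.lt_two_pow_self
  have p3 : (i + 1) * (i + 1) ≤ 4 ^ i := by
    rw [show (4 : ℕ) = 2 * 2 by norm_num, mul_pow]
    exact Nat.mul_le_mul Nat.lt_two_pow_self Nat.lt_two_pow_self
  have p4 : 1 ≤ 4 ^ i * b i := Nat.mul_pos (by positivity) (b_pos i)
  have p5 : 4 ^ i * b i ≤ N := by rw [mul_assoc] at p1; omega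
  have p6 : b i ≤ 4 ^ i * b i := Nat.le_mul_of_pos_left _ (by positivity)
  refine ⟨N, by omega, ENNReal.div_le_of_le_mul ?_⟩
  have hη' : (0 : ℝ) < η := hη
  have q : C * (i + 1) * b i ≤ η * N := by
    rw [div_le_iff₀ hη'] at hK
    have a1 : (K : ℝ) ≤ i + 1 := by exact_mod_cast (by omega : K ≤ i + 1)
    have a2 : ((i : ℝ) + 1) * (i + 1) * b i ≤ N := by
      exact_mod_cast (Nat.mul_le_mul_right _ p3).trans p5
    have a3 : C ≤ ((i : ℝ) + 1) * η := hK.trans (by gcongr)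
    calc C * (i + 1) * b i ≤ (((i : ℝ) + 1) * η) * (i + 1) * b i := by gcongr
      _ = η * (((i : ℝ) + 1) * (i + 1) * b i) := by ring
      _ ≤ _ := by gcongr
  have := Set.encard_le_encard (show A ∩ {j | 1 ≤ j ∧ (j : ℝ) ≤ N} ⊆ ↑(Finset.Ioc 0 ⌊(η : ℝ) * N⌋₊) from
    fun j hj => mem_coe.2 (Finset.mem_Ioc.2 ⟨hj.2.1, Nat.le_floor
      ((h3 j hj.1 (by exact_mod_cast hj.2.2)).le.trans q)⟩))
  rw [Set.encard_coe_eq_coe_finsetCard, Nat.card_Ioc, Nat.sub_zero] at this
  refine (ENat.toENNReal_le.2 this).trans ?_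
  rw [ENat.toENNReal_coe]
  exact_mod_cast (Nat.floor_le (by positivity : (0 : ℝ) ≤ η * N))

noncomputable def z : X := mk (fun n => if Even n.unpair.1 ∧ n.unpair.2 + 1 = b (n.unpair.1 + 1) then
    1 / (n.unpair.1 + 1) else 0) (by
  rw [← Nat.cofinite_eq_atTop, NormedAddGroup.tendsto_nhds_zero]
  intro ε hε
  obtain ⟨K, hK⟩ := exists_nat_one_div_lt hε
  refine ((Set.finite_lt_nat K).image fun i => Nat.pair i (b (i + 1) - 1)).subset fun n hn => ?_
  simp only [Set.mem_compl_iff, Set.mem_ofPred_eq] at hn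
  split_ifs at hn with h
  · refine ⟨n.unpair.1, ?_, by simp [← h.2]⟩
    by_contra h2
    rw [norm_div, norm_one, ← Nat.cast_succ, Complex.norm_natCast, Nat.cast_succ] at hn
    exact hn ((Nat.one_div_le_one_div (not_lt.1 h2)).trans_lt hK)
  · simp [hε] at hn)

theorem nz (i j : ℕ) : ‖z (Nat.pair i j)‖ = if Even i ∧ j + 1 = b (i + 1) then 1 / ((i : ℝ) + 1) else 0 := by
  change ‖(if _ then _ else _ : ℂ)‖ = _
  simp only [Nat.unpair_pair]
  split_ifs
  · rw [norm_div, norm_one, ← Nat.cast_succ, Complex.norm_natCast, Nat.cast_succ]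
  · simp

theorem gen {Y : Type} [NormedAddCommGroup Y] [NormedSpace ℂ Y] (L : Y →L[ℂ] Y) (s t : ℂ) (y : Y) :
    dist (L (s • y)) (L (t • y)) = ‖s - t‖ * ‖L y‖ := by
  rw [dist_eq_norm, map_smul, map_smul, ← sub_smul, norm_smul]

theorem result : ∃ (X : Type) (_ : NormedAddCommGroup X) (_ : NormedSpace ℂ X) (_ : CompleteSpace X)
    (m : ℕ → ℝ) (T : X →L[ℂ] X) (X₀ : Submodule ℂ X),
    StrictMono m ∧ (∀ n, 1 ≤ m n) ∧ (∀ n : ℕ, (n : ℝ) ≤ m n) ∧ Dense (X₀ : Set X) ∧
    (∀ x ∈ X₀, Tendsto (fun n => (T ^ n) x) atTop (𝓝 0)) ∧ DC (fun n => n) T ∧ ¬ DC m T := by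
  refine ⟨X, inferInstance, inferInstance, inferInstance, fun n => b n, S, X0,
    fun i j h => Nat.cast_lt.2 (b_mono h), fun n => Nat.one_le_cast.2 (b_pos n),
    fun n => Nat.cast_le.2 (b_mono.id_le n), X0_dense, fun x h => h, ?_, ?_⟩
  · have z0 : z ≠ 0 := fun h => by
      have := nz 0 1
      rw [h] at this
      simp [b] at this
    haveI : Uncountable ℂ := Complex.ofReal_injective.uncountable
    refine ⟨Set.range fun t : ℂ => t • z, fun h => Set.not_countable_univ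
      (Set.countable_of_injective_of_countable_image (smul_left_injective ℂ z0).injOn
        (by rwa [Set.image_univ])), 1, one_pos, ?_⟩
    rintro ε hε _ ⟨s, rfl⟩ _ ⟨t, rfl⟩ hne
    have h0 : 0 < ‖s - t‖ := norm_pos_iff.2 (sub_ne_zero.2 (by rintro rfl; exact hne rfl))
    have e1 : ∀ j : ℕ, dist ((S ^ j) (s • z)) ((S ^ j) (t • z)) = ‖s - t‖ * ‖(S ^ j) z‖ := fun j => by
      exact gen _ _ _ _
    simp only [e1]
    refine ⟨ld_zero _ (1 / ‖s - t‖) fun M => ⟨2 * M, _, by omega, le_rfl, fun j hj hN => ?_⟩,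
      ld_zero _ 1 fun M => ?_⟩
    · have hb : (0 : ℝ) < b (2 * M) := by exact_mod_cast b_pos _
      rcases j with _ | j
      · simp only [Nat.cast_zero]; positivity
      have h1 := ap_le ((S ^ (j + 1)) z) (Nat.pair (2 * M) (b (2 * M + 1) - 1 - (j + 1)))
      rw [S_pow, if_pos (by omega), norm_mul, norm_pow, Complex.norm_of_nonneg (by linarith [r1 (2 * M)]),
        nz, if_pos ⟨by simp, by omega⟩] at h1
      have h2 := one_add_mul_le_pow (a := 1 / (b (2 * M) : ℝ)) (le_trans (by norm_num) (by positivity : (0 : ℝ) ≤ _)) (j + 1)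
      have h3 : ‖s - t‖ * (((j + 1 : ℕ) : ℝ) * (1 / b (2 * M)) * (1 / ((2 * M : ℕ) + 1))) < 1 :=
        lt_of_le_of_lt (mul_le_mul_of_nonneg_left (le_trans (by unfold r; gcongr; linarith) h1) h0.le) hj
      rw [mul_assoc, one_div_mul_eq_div, lt_div_iff₀ h0]
      rwa [mul_one_div, mul_one_div, div_div, ← mul_div_assoc, div_lt_one (by positivity), mul_comm,
        mul_comm (b _ : ℝ)] at h3
    · obtain ⟨K, hK⟩ := exists_nat_one_div_lt (show 0 < ε / (3 * ‖s - t‖) by positivity)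
      refine ⟨2 * (M + K) + 1, _, by omega, le_rfl, fun j hj hN => ?_⟩
      set i := 2 * (M + K) + 1 with hi
      by_contra h
      have h1 : b i ≤ j := by
        have : (b i : ℝ) ≤ j := le_trans (le_mul_of_one_le_left (by positivity)
          (by linarith [(Nat.cast_nonneg i : (0 : ℝ) ≤ i)])) (not_lt.1 h)
        exact_mod_cast this
      have h2 := S_le j ((b_pos i).trans_le h1) z (3 * (1 / (K + 1))) (by positivity) fun i' j' a1 a2 => by
        rw [nz]
        split_ifs with a3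
        · have a4 : i < i' + 1 := b_mono.lt_iff_lt.1 (by omega)
          have a5 : i + 1 ≤ i' := by obtain ⟨k, hk⟩ := a3.1; omega
          have := b_mono.monotone a5
          exact mul_le_mul (r3 _ _ (by omega)) (Nat.one_div_le_one_div (by omega)) (by positivity)
            (by norm_num)
        · rw [mul_zero]; positivity
      rw [lt_div_iff₀ (by positivity)] at hK
      have h3 : ε ≤ ‖s - t‖ * ‖(S ^ j) z‖ := hj
      nlinarith
  · rintro ⟨A, hA, σ, hσ, h⟩
    obtain ⟨x, hx, y, hy, hne⟩ : A.Nontrivial :=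
      Set.not_subsingleton_iff.1 fun h => hA h.countable
    have h1 := (h 1 one_pos x hx y hy hne).1
    obtain ⟨M, hM⟩ := eventually_atTop.1 (along (x - y) σ hσ)
    have h2 : (2⁻¹ : ℝ≥0∞) ≤ ld (fun n => b n) {j | dist ((S ^ j) x) ((S ^ j) y) < σ} := by
      refine le_liminf_of_le (by isBoundedDefault) (eventually_atTop.2 ⟨2 * M + 1, fun n hn => ?_⟩)
      have := Set.encard_le_encard (show (((Finset.Icc M n).image b : Finset ℕ) : Set ℕ) ⊆
        {j : ℕ | dist ((S ^ j) x) ((S ^ j) y) < σ} ∩ {j : ℕ | 1 ≤ j ∧ (j : ℝ) ≤ b n} from fun j hj => by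
          obtain ⟨i, hi, rfl⟩ := mem_image.1 (mem_coe.1 hj)
          have := Finset.mem_Icc.1 hi
          exact ⟨by simpa [dist_eq_norm] using hM i this.1, b_pos i,
            Nat.cast_le.2 (b_mono.monotone this.2)⟩)
      rw [Set.encard_coe_eq_coe_finsetCard, card_image_of_injective _ b_mono.injective,
        Nat.card_Icc] at this
      rw [ENNReal.le_div_iff_mul_le (Or.inl (by simp; omega)) (Or.inl (by simp))]
      refine le_trans ?_ (ENat.toENNReal_le.2 this)
      rw [ENat.toENNReal_coe, ENNReal.inv_mul_le_iff (by norm_num) (by norm_num)]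
      exact_mod_cast (by omega : n ≤ 2 * (n + 1 - M))
    rw [h1] at h2
    simp at h2

end Pool.Agent.Results.MP_890ea4_an.NotChaotic
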